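import Pool.Agent.K7.H26.FV.Sign

set_option autoImplicit false

open MeasureTheory Set Real Filter Topology Finset

/-!
# The `L¹` norm of the difference of the saw tooth function and its interpolating sine polynomial
-/

namespace Pool.Agent.K7.H26.FV

/-- sign -/
noncomputable def sg (x : ℝ) : ℝ := if 0 < x then 1 else if x < 0 then -1 else 0

theorem sg_neg (x : ℝ) : sg (-x) = -sg x := by
  unfold sg
  rcases lt_trichotomy x 0 with h | h | h
  · have h1 : 0 < -x := by linarith
    have h2 : ¬ 0 < x := by linarith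
    simp [h1, h2, h]
  · simp [h]
  · have h1 : ¬ 0 < -x := by linarith
    have h2 : -x < 0 := by linarith
    simp [h1, h2, h]

theorem sg_meas : Measurable sg :=
  Measurable.ite measurableSet_Ioi measurable_const
    (Measurable.ite measurableSet_Iio measurable_const measurable_const)

theorem sg_abs (x : ℝ) : |sg x| ≤ 1 := by
  unfold sg
  split_ifs <;> simp

theorem sg_mul_of_nonneg {x y : ℝ} (hx : x ≠ 0) (h : 0 ≤ x * y) : y * sg x = |y| := by
  unfold sg
  rcases lt_trichotomy x 0 with h1 | h1 | h1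
  · have h2 : ¬ 0 < x := by linarith
    have h3 : y ≤ 0 := by nlinarith
    simp [h1, h2, abs_of_nonpos h3]
  · exact absurd h1 hx
  · have h3 : 0 ≤ y := by nlinarith
    simp [h1, abs_of_nonneg h3]

/-- the square wave -/
noncomputable def sq (N : ℕ) (t : ℝ) : ℝ := sg (sin (N * t))

theorem sq_shift {N : ℕ} (hN : 1 ≤ N) (t : ℝ) : sq N (t + π / N) = -sq N t := by
  have hN0 : (N : ℝ) ≠ 0 := by positivity
  unfold sq
  rw [mul_add, mul_div_cancel₀ _ hN0, sin_add_pi, sg_neg]

theorem sq_shift_nat {N : ℕ} (hN : 1 ≤ N) (j : ℕ) (t : ℝ) :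
    sq N (t + j * (π / N)) = (-1) ^ j * sq N t := by
  induction j with
  | zero => simp
  | succ j ih =>
    rw [show t + ((j + 1 : ℕ) : ℝ) * (π / N) = (t + j * (π / N)) + π / N by push_cast; ring,
      sq_shift hN, ih, pow_succ]
    ring

theorem sq_per (N : ℕ) (t : ℝ) : sq N (t + 2 * π) = sq N t := by
  unfold sq
  rw [mul_add, sin_add_nat_mul_two_pi]

theorem sq_meas (N : ℕ) : Measurable (sq N) :=
  sg_meas.comp (measurable_sin.comp (measurable_const.mul measurable_id))

theorem int_mul_sq (N : ℕ) {g : ℝ → ℝ} (hg : Continuous g) (a b : ℝ) :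
    IntervalIntegrable (fun t => g t * sq N t) volume a b := by
  have h1 : IntervalIntegrable g volume a b := hg.intervalIntegrable a b
  refine h1.mono_fun ?_ ?_
  · exact (hg.measurable.mul (sq_meas N)).aestronglyMeasurable
  · refine ae_of_all _ fun t => ?_
    show ‖g t * sq N t‖ ≤ ‖g t‖
    rw [norm_mul]
    have := sg_abs (sin (N * t))
    have h2 : ‖sq N t‖ ≤ 1 := this
    calc ‖g t‖ * ‖sq N t‖ ≤ ‖g t‖ * 1 := by gcongr
      _ = ‖g t‖ := mul_one _

theorem orth {N k : ℕ} (hN : 1 ≤ N) (hk : k < N) :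
    ∫ t in (0 : ℝ)..2 * π, sin (k * t) * sq N t = 0 := by
  have hN0 : (0 : ℝ) < N := by exact_mod_cast hN
  set c := π / N with hc
  set Is := ∫ t in (0 : ℝ)..2 * π, sin (k * t) * sq N t with hIs
  set Ic := ∫ t in (0 : ℝ)..2 * π, cos (k * t) * sq N t with hIc
  have hcs : Continuous fun t : ℝ => sin (k * t) := by fun_prop
  have hcc : Continuous fun t : ℝ => cos (k * t) := by fun_prop
  have ps : Function.Periodic (fun t : ℝ => sin (k * t) * sq N t) (2 * π) := by
    intro t
    simp only [sq_per]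
    rw [mul_add, sin_add_nat_mul_two_pi]
  have pc : Function.Periodic (fun t : ℝ => cos (k * t) * sq N t) (2 * π) := by
    intro t
    simp only [sq_per]
    rw [mul_add, cos_add_nat_mul_two_pi]
  have e1 : Is = ∫ t in (0 : ℝ)..2 * π, sin (k * (t + c)) * sq N (t + c) := by
    rw [intervalIntegral.integral_comp_add_right (fun t => sin (k * t) * sq N t) c]
    have := ps.intervalIntegral_add_eq 0 c
    rw [zero_add] at this
    rw [hIs, this, zero_add, add_comm c]
  have e2 : Ic = ∫ t in (0 : ℝ)..2 * π, cos (k * (t + c)) * sq N (t + c) := by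
    rw [intervalIntegral.integral_comp_add_right (fun t => cos (k * t) * sq N t) c]
    have := pc.intervalIntegral_add_eq 0 c
    rw [zero_add] at this
    rw [hIc, this, zero_add, add_comm c]
  have f1 : Is = -(cos (k * c) * Is + sin (k * c) * Ic) := by
    refine e1.trans ?_
    have : ∀ t : ℝ, sin (k * (t + c)) * sq N (t + c) =
        -(cos (k * c) * (sin (k * t) * sq N t) + sin (k * c) * (cos (k * t) * sq N t)) := by
      intro t
      rw [hc, sq_shift hN, mul_add, sin_add]
      ring
    simp_rw [this]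
    rw [intervalIntegral.integral_neg, intervalIntegral.integral_add
      ((int_mul_sq N hcs _ _).const_mul _) ((int_mul_sq N hcc _ _).const_mul _),
      intervalIntegral.integral_const_mul, intervalIntegral.integral_const_mul]
  have f2 : Ic = -(cos (k * c) * Ic - sin (k * c) * Is) := by
    refine e2.trans ?_
    have : ∀ t : ℝ, cos (k * (t + c)) * sq N (t + c) =
        -(cos (k * c) * (cos (k * t) * sq N t) - sin (k * c) * (sin (k * t) * sq N t)) := by
      intro t
      rw [hc, sq_shift hN, mul_add, cos_add]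
      ring
    simp_rw [this]
    rw [intervalIntegral.integral_neg, intervalIntegral.integral_sub
      ((int_mul_sq N hcc _ _).const_mul _) ((int_mul_sq N hcs _ _).const_mul _),
      intervalIntegral.integral_const_mul, intervalIntegral.integral_const_mul]
  have hkc : (k : ℝ) * c < π := by
    have : (k : ℝ) < N := by exact_mod_cast hk
    rw [hc, mul_div_assoc', div_lt_iff₀ hN0]
    nlinarith [pi_pos]
  have hkc0 : 0 ≤ (k : ℝ) * c := by positivity
  have hcos : -1 < cos (k * c) := by
    have := cos_lt_cos_of_nonneg_of_le_pi hkc0 le_rfl hkc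
    rwa [cos_pi] at this
  have h1 : ((1 + cos (k * c)) ^ 2 + sin (k * c) ^ 2) * Is = 0 := by
    linear_combination (1 + cos (k * c)) * f1 - sin (k * c) * f2
  rcases mul_eq_zero.1 h1 with h | h
  · nlinarith [sq_nonneg (sin (k * c))]
  · exact h

theorem alt1 (N : ℕ) : ∑ j ∈ range (2 * N), (-1 : ℝ) ^ j = 0 := by
  induction N with
  | zero => simp
  | succ N ih =>
    rw [show 2 * (N + 1) = 2 * N + 1 + 1 by ring, Finset.sum_range_succ, Finset.sum_range_succ, ih,
      pow_succ]
    ring

theorem alt2 (N : ℕ) : ∑ j ∈ range (2 * N), (-1 : ℝ) ^ j * j = -N := by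
  induction N with
  | zero => simp
  | succ N ih =>
    rw [show 2 * (N + 1) = 2 * N + 1 + 1 by ring, Finset.sum_range_succ, Finset.sum_range_succ, ih,
      pow_succ, pow_mul]
    push_cast
    norm_num
    ring

theorem first_int {N : ℕ} (hN : 1 ≤ N) {g : ℝ → ℝ} :
    ∫ t in (0 : ℝ)..π / N, g t * sq N t = ∫ t in (0 : ℝ)..π / N, g t := by
  have hN0 : (0 : ℝ) < N := by exact_mod_cast hN
  have hne : ∀ᵐ x : ℝ, x ≠ π / N := by
    rw [ae_iff]; simp
  refine intervalIntegral.integral_congr_ae ?_
  filter_upwards [hne] with t ht hmem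
  rw [uIoc_of_le (by positivity)] at hmem
  have h1 : t < π / N := lt_of_le_of_ne hmem.2 ht
  have h2 : 0 < sin (N * t) := by
    apply sin_pos_of_mem_Ioo
    refine ⟨mul_pos hN0 hmem.1, ?_⟩
    rw [lt_div_iff₀ hN0] at h1
    linarith
  have : sq N t = 1 := by
    unfold sq sg
    simp [h2]
  rw [this, mul_one]

theorem moment {N : ℕ} (hN : 1 ≤ N) :
    ∫ t in (0 : ℝ)..2 * π, t * sq N t = -(π ^ 2 / N) := by
  have hN0 : (0 : ℝ) < N := by exact_mod_cast hN
  set c := π / N with hc
  have hsum := intervalIntegral.sum_integral_adjacent_intervals (μ := volume)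
    (f := fun t : ℝ => t * sq N t) (a := fun j : ℕ => (j : ℝ) * c) (n := 2 * N)
    (fun j _ => int_mul_sq N continuous_id _ _)
  have hend : ((2 * N : ℕ) : ℝ) * c = 2 * π := by
    rw [hc]; push_cast; field_simp
  simp only [Nat.cast_zero, zero_mul] at hsum
  rw [hend] at hsum
  rw [← hsum]
  have hj : ∀ j : ℕ, ∫ t in ((j : ℝ) * c)..(((j + 1 : ℕ) : ℝ) * c), t * sq N t =
      (-1) ^ j * (c ^ 2 / 2) + (-1) ^ j * j * c ^ 2 := by
    intro j
    have h1 := intervalIntegral.integral_comp_add_right (a := 0) (b := c)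
      (fun t : ℝ => t * sq N t) ((j : ℝ) * c)
    rw [show ((j + 1 : ℕ) : ℝ) * c = c + j * c by push_cast; ring]
    rw [zero_add] at h1
    rw [← h1]
    have h2 : ∀ t : ℝ, (t + j * c) * sq N (t + j * c) = ((-1) ^ j * (t + j * c)) * sq N t := by
      intro t
      rw [hc, sq_shift_nat hN]
      ring
    simp_rw [h2]
    rw [hc, first_int hN, ← hc, intervalIntegral.integral_const_mul,
      intervalIntegral.integral_add (by simp) (by simp)]
    simp
    ring
  simp_rw [hj]
  rw [Finset.sum_add_distrib, ← Finset.sum_mul, ← Finset.sum_mul, alt1, alt2, hc]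
  field_simp
  ring

theorem saw {N : ℕ} (hN : 1 ≤ N) :
    ∫ t in (0 : ℝ)..2 * π, (π - t) / 2 * sq N t = π ^ 2 / (2 * N) := by
  have h0 := orth (k := 0) hN (by omega)
  have h1 : ∫ t in (0 : ℝ)..2 * π, (1 : ℝ) * sq N t = 0 := by
    rcases Nat.lt_or_ge 0 N with h | h
    swap
    · omega
    -- `∫ sq = 0` by the shift
    have hN0 : (0 : ℝ) < N := by exact_mod_cast hN
    have p : Function.Periodic (fun t : ℝ => (1 : ℝ) * sq N t) (2 * π) := by
      intro t
      simp only [sq_per]
    have e1 : ∫ t in (0 : ℝ)..2 * π, (1 : ℝ) * sq N t =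
        ∫ t in (0 : ℝ)..2 * π, (1 : ℝ) * sq N (t + π / N) := by
      rw [intervalIntegral.integral_comp_add_right (fun t => (1 : ℝ) * sq N t) (π / N)]
      have := p.intervalIntegral_add_eq 0 (π / N)
      rw [zero_add] at this
      rw [this, zero_add, add_comm (π / N)]
    simp_rw [sq_shift hN, mul_neg] at e1
    rw [intervalIntegral.integral_neg] at e1
    linarith
  have h2 := moment hN
  have h3 : ∀ t : ℝ, (π - t) / 2 * sq N t = π / 2 * ((1 : ℝ) * sq N t) - 1 / 2 * (t * sq N t) := by
    intro t; ring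
  simp_rw [h3]
  have i1 : IntervalIntegrable (fun t : ℝ => π / 2 * ((1 : ℝ) * sq N t)) volume 0 (2 * π) :=
    (int_mul_sq N continuous_const _ _).const_mul _
  have i2 : IntervalIntegrable (fun t : ℝ => 1 / 2 * (t * sq N t)) volume 0 (2 * π) :=
    (int_mul_sq N continuous_id _ _).const_mul _
  rw [intervalIntegral.integral_sub i1 i2,
    intervalIntegral.integral_const_mul (π / 2) (fun t : ℝ => (1 : ℝ) * sq N t),
    intervalIntegral.integral_const_mul (1 / 2) (fun t : ℝ => t * sq N t), h1, h2]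
  have hN0 : (N : ℝ) ≠ 0 := by positivity
  field_simp
  ring

/-- the `L¹` norm -/
theorem ker {N : ℕ} (hN : 1 ≤ N) :
    ∫ t in (0 : ℝ)..2 * π, |(π - t) / 2 - ∑ k ∈ range N, lam N k * sin (k * t)| =
      π ^ 2 / (2 * N) := by
  have hN0 : (0 : ℝ) < N := by exact_mod_cast hN
  have hcount : ∀ᵐ t : ℝ, sin (N * t) ≠ 0 := by
    have hsub : {t : ℝ | ¬ sin (N * t) ≠ 0} ⊆ Set.range fun n : ℤ => n * π / N := by
      intro t ht
      have ht' : sin (N * t) = 0 := by simpa using ht
      obtain ⟨n, hn⟩ := sin_eq_zero_iff.1 ht'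
      refine ⟨n, ?_⟩
      simp only
      rw [hn]
      field_simp
    rw [ae_iff]
    exact ((Set.countable_range _).mono hsub).measure_zero _
  have h1 : ∫ t in (0 : ℝ)..2 * π, |(π - t) / 2 - ∑ k ∈ range N, lam N k * sin (k * t)| =
      ∫ t in (0 : ℝ)..2 * π, ((π - t) / 2 - ∑ k ∈ range N, lam N k * sin (k * t)) * sq N t := by
    have hne : ∀ᵐ x : ℝ, x ≠ 2 * π := by
      rw [ae_iff]; simp
    refine intervalIntegral.integral_congr_ae ?_
    filter_upwards [hcount, hne] with t ht ht2 hmem
    rw [uIoc_of_le (by positivity)] at hmem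
    exact (sg_mul_of_nonneg ht (sign hN ⟨hmem.1, lt_of_le_of_ne hmem.2 ht2⟩)).symm
  rw [h1]
  have h2 : ∀ t : ℝ, ((π - t) / 2 - ∑ k ∈ range N, lam N k * sin (k * t)) * sq N t =
      (π - t) / 2 * sq N t - ∑ k ∈ range N, lam N k * (sin (k * t) * sq N t) := by
    intro t
    rw [sub_mul, Finset.sum_mul]
    congr 1
    exact Finset.sum_congr rfl fun k _ => by ring
  simp_rw [h2]
  have hint : ∀ k ∈ range N, IntervalIntegrable
      (fun t : ℝ => lam N k * (sin (k * t) * sq N t)) volume 0 (2 * π) := fun k _ =>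
    (int_mul_sq N (by fun_prop) _ _).const_mul _
  have i1 : IntervalIntegrable (fun t : ℝ => (π - t) / 2 * sq N t) volume 0 (2 * π) :=
    int_mul_sq N (by fun_prop) _ _
  have i2 : IntervalIntegrable (fun t : ℝ => ∑ k ∈ range N, lam N k * (sin (k * t) * sq N t))
      volume 0 (2 * π) := by
    have h := IntervalIntegrable.sum (range N) hint
    have e : (fun t : ℝ => ∑ k ∈ range N, lam N k * (sin (k * t) * sq N t)) =
        ∑ k ∈ range N, fun t : ℝ => lam N k * (sin (k * t) * sq N t) := by
      funext t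
      simp
    rw [e]
    exact h
  rw [intervalIntegral.integral_sub i1 i2, saw hN, intervalIntegral.integral_finsetSum hint]
  have : ∑ k ∈ range N, ∫ t in (0 : ℝ)..2 * π, lam N k * (sin (k * t) * sq N t) = 0 := by
    refine Finset.sum_eq_zero fun k hk => ?_
    rw [intervalIntegral.integral_const_mul, orth hN (Finset.mem_range.1 hk), mul_zero]
  rw [this, sub_zero]

/-- half of the interval -/
theorem ker_half {N : ℕ} (hN : 1 ≤ N) :
    ∫ t in (0 : ℝ)..π, |(π - t) / 2 - ∑ k ∈ range N, lam N k * sin (k * t)| =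
      π ^ 2 / (4 * N) := by
  have hk := ker hN
  set g : ℝ → ℝ := fun t => |(π - t) / 2 - ∑ k ∈ range N, lam N k * sin (k * t)| with hg
  have hc : Continuous g := by
    rw [hg]; fun_prop
  have hsym : ∀ t, g (2 * π - t) = g t := by
    intro t
    have e : ∀ k : ℕ, sin (k * (2 * π - t)) = - sin (k * t) := by
      intro k
      rw [show (k : ℝ) * (2 * π - t) = k * (2 * π) - k * t by ring, sin_nat_mul_two_pi_sub]
    simp only [hg, e]
    have e2 : ∑ k ∈ range N, lam N k * -sin (k * t) = -∑ k ∈ range N, lam N k * sin (k * t) := by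
      rw [← Finset.sum_neg_distrib]
      exact Finset.sum_congr rfl fun k _ => by ring
    rw [e2, ← abs_neg]
    congr 1
    ring
  have h1 : ∫ t in (0 : ℝ)..2 * π, g t = (∫ t in (0 : ℝ)..π, g t) + ∫ t in π..2 * π, g t :=
    (intervalIntegral.integral_add_adjacent_intervals (hc.intervalIntegrable _ _)
      (hc.intervalIntegrable _ _)).symm
  have h2 : ∫ t in π..2 * π, g t = ∫ t in (0 : ℝ)..π, g t := by
    have := intervalIntegral.integral_comp_sub_left (a := 0) (b := π) g (2 * π)
    simp only [hsym] at this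
    rw [this]
    congr 1 <;> ring
  have h3 : ∫ t in (0 : ℝ)..2 * π, g t = π ^ 2 / (2 * N) := hk
  have : ∫ t in (0 : ℝ)..π, g t = π ^ 2 / (2 * N) / 2 := by linarith
  rw [this]
  ring

end Pool.Agent.K7.H26.FV
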