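import Pool.Agent.K7.H48.PC.Stm
import Pool.Agent.K7.H26.FV.Ker

set_option autoImplicit false

/-! # Project PC: the kernel estimate -/

namespace Pool.Agent.K7.H26.FV

/-- the kernel estimate -/
theorem stFav : Pool.Agent.K7.H48.PC.StFav :=
  fun N hN => ⟨lam N, (ker_half hN).le⟩

end Pool.Agent.K7.H26.FV
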