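import Mathlib

set_option autoImplicit false

open MeasureTheory Set Real Filter Topology Finset

/-!
# The sign of the difference of the saw tooth function and its interpolating sine polynomial
-/

namespace Pool.Agent.K7.H26.FV

/-- partial sums -/
theorem partial_sum (x u t : ℝ) (M : ℕ) :
    ∑ k ∈ range M, 2 * (cosh u - cos t) * (sinh ((x - k) * u) * sin (k * t)) =
      sinh (x * u) * sin t - sinh ((x - M + 1) * u) * sin (M * t) +
        sinh ((x - M) * u) * sin ((M - 1) * t) := by
  induction M with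
  | zero =>
    simp only [Finset.range_zero, Finset.sum_empty, Nat.cast_zero, sub_zero, zero_mul, sin_zero,
      mul_zero, zero_sub, neg_mul, one_mul, sin_neg]
    ring
  | succ M ih =>
    rw [Finset.sum_range_succ, ih]
    push_cast
    have e1 : (x - (M + 1) + 1) * u = (x - M) * u := by ring
    have e2 : ((M : ℝ) + 1 - 1) * t = M * t := by ring
    have e3 : (x - (M + 1)) * u = (x - M) * u - u := by ring
    have e4 : (x - M + 1) * u = (x - M) * u + u := by ring
    have e5 : ((M : ℝ) + 1) * t = M * t + t := by ring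
    have e6 : ((M : ℝ) - 1) * t = M * t - t := by ring
    rw [e1, e2, e3, e4, e5, e6, Real.sinh_sub, Real.sinh_add, sin_add, sin_sub]
    ring

theorem full_sum (N : ℕ) (u t : ℝ) :
    2 * (cosh u - cos t) * ∑ k ∈ range N, sinh ((N - k) * u) * sin (k * t) =
      sinh (N * u) * sin t - sinh u * sin (N * t) := by
  rw [Finset.mul_sum, partial_sum]
  have e1 : ((N : ℝ) - N + 1) * u = u := by ring
  have e2 : ((N : ℝ) - N) * u = 0 := by ring
  rw [e1, e2, Real.sinh_zero]
  ring

theorem cosh_sub_pos {t : ℝ} (ht : t ∈ Ioo (0 : ℝ) π) (u : ℝ) : 0 < cosh u - cos t := by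
  have h1 : 1 ≤ cosh u := Real.one_le_cosh u
  have h2 : cos t < 1 := by
    have := Real.cos_lt_cos_of_nonneg_of_le_pi le_rfl ht.2.le ht.1
    simpa using this
  linarith

/-- the antiderivative -/
theorem hasDeriv {t : ℝ} (ht : t ∈ Ioo (0 : ℝ) π) (u : ℝ) :
    HasDerivAt (fun u => arctan ((exp u - cos t) / sin t)) (sin t / (2 * (cosh u - cos t))) u := by
  have hs : 0 < sin t := sin_pos_of_mem_Ioo ht
  have hc := cosh_sub_pos ht u
  have h1 : HasDerivAt (fun u => (exp u - cos t) / sin t) (exp u / sin t) u :=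
    ((Real.hasDerivAt_exp u).sub_const _).div_const _
  have h2 := h1.arctan
  convert h2 using 1
  have hsc : sin t ^ 2 + cos t ^ 2 = 1 := sin_sq_add_cos_sq t
  have he : exp u ≠ 0 := (exp_pos u).ne'
  have hcosh : cosh u = (exp u + (exp u)⁻¹) / 2 := by rw [Real.cosh_eq, Real.exp_neg]
  have h3 : 1 + ((exp u - cos t) / sin t) ^ 2 = 2 * exp u * (cosh u - cos t) / sin t ^ 2 := by
    rw [hcosh]
    field_simp
    nlinarith [hsc]
  rw [h3]
  have hne : cosh u - cos t ≠ 0 := hc.ne'
  field_simp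

theorem F_nonneg {t : ℝ} (ht : t ∈ Ioo (0 : ℝ) π) (u : ℝ) :
    0 ≤ sin t / (2 * (cosh u - cos t)) := by
  have hs : 0 < sin t := sin_pos_of_mem_Ioo ht
  have hc := cosh_sub_pos ht u
  positivity

theorem tend {t : ℝ} (ht : t ∈ Ioo (0 : ℝ) π) :
    Tendsto (fun u => arctan ((exp u - cos t) / sin t)) atTop (𝓝 (π / 2)) := by
  have hs : 0 < sin t := sin_pos_of_mem_Ioo ht
  have h1 : Tendsto (fun u : ℝ => (exp u - cos t) / sin t) atTop atTop :=
    (tendsto_atTop_add_const_right _ (-cos t) tendsto_exp_atTop).atTop_div_const hs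
  exact (tendsto_nhds_of_tendsto_nhdsWithin tendsto_arctan_atTop).comp h1

theorem F_int {t : ℝ} (ht : t ∈ Ioo (0 : ℝ) π) :
    IntegrableOn (fun u => sin t / (2 * (cosh u - cos t))) (Ioi 0) :=
  integrableOn_Ioi_deriv_of_nonneg' (fun u _ => hasDeriv ht u) (fun u _ => F_nonneg ht u) (tend ht)

theorem F_val {t : ℝ} (ht : t ∈ Ioo (0 : ℝ) π) :
    ∫ u in Ioi (0 : ℝ), sin t / (2 * (cosh u - cos t)) = (π - t) / 2 := by
  rw [integral_Ioi_of_hasDerivAt_of_nonneg' (fun u _ => hasDeriv ht u)
    (fun u _ => F_nonneg ht u) (tend ht)]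
  have hs : 0 < sin t := sin_pos_of_mem_Ioo ht
  have ht2 : 0 < cos (t / 2) := cos_pos_of_mem_Ioo ⟨by linarith [ht.1, ht.2], by linarith [ht.2]⟩
  have hs2 : 0 < sin (t / 2) := sin_pos_of_mem_Ioo ⟨by linarith [ht.1], by linarith [ht.1, ht.2]⟩
  have h1 : (exp 0 - cos t) / sin t = tan (t / 2) := by
    have e1 : sin t = 2 * sin (t / 2) * cos (t / 2) := by
      rw [← sin_two_mul]; congr 1; ring
    have e2 : cos t = 1 - 2 * sin (t / 2) ^ 2 := by
      have := cos_sq' (t / 2)
      have h := cos_two_mul (t / 2)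
      rw [show 2 * (t / 2) = t by ring] at h
      rw [h, this]; ring
    rw [exp_zero, e1, e2, tan_eq_sin_div_cos]
    field_simp
    ring
  rw [h1, arctan_tan (by linarith [ht.1, pi_pos]) (by linarith [ht.2])]
  ring

/-- the ratios -/
theorem ratio_bound {N k : ℕ} (hk : 1 ≤ k) (hkN : k < N) {u : ℝ} (hu : 0 < u) :
    0 ≤ sinh ((N - k) * u) / sinh (N * u) ∧ sinh ((N - k) * u) / sinh (N * u) ≤ exp (-u) := by
  have hN : (0 : ℝ) < N := by exact_mod_cast (by omega : 0 < N)
  have hNk : (0 : ℝ) < (N : ℝ) - k := by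
    have : (k : ℝ) < N := by exact_mod_cast hkN
    linarith
  have hk1 : (1 : ℝ) ≤ k := by exact_mod_cast hk
  have h1 : 0 < sinh (N * u) := Real.sinh_pos_iff.2 (by positivity)
  have h2 : 0 < sinh ((N - k) * u) := Real.sinh_pos_iff.2 (by positivity)
  refine ⟨by positivity, ?_⟩
  rw [div_le_iff₀ h1, Real.sinh_eq, Real.sinh_eq]
  have e1 : exp (-u) * ((exp (N * u) - exp (-(N * u))) / 2) =
      (exp (N * u - u) - exp (-(N * u) - u)) / 2 := by
    rw [show N * u - u = -u + N * u by ring, show -(N * u) - u = -u + -(N * u) by ring,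
      Real.exp_add, Real.exp_add]
    ring
  rw [e1]
  have h3 : exp ((N - k) * u) ≤ exp (N * u - u) := Real.exp_le_exp.2 (by nlinarith)
  have h4 : exp (-(N * u) - u) ≤ exp (-((N - k) * u)) := Real.exp_le_exp.2 (by nlinarith)
  linarith

theorem ratio_int {N k : ℕ} (hk : 1 ≤ k) (hkN : k < N) :
    IntegrableOn (fun u : ℝ => sinh ((N - k) * u) / sinh (N * u)) (Ioi 0) := by
  refine Integrable.mono' (integrableOn_exp_neg_Ioi 0) ?_ ?_
  · apply Measurable.aestronglyMeasurable
    exact ((Real.continuous_sinh.measurable.comp (measurable_const.mul measurable_id)).div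
      (Real.continuous_sinh.measurable.comp (measurable_const.mul measurable_id)))
  · refine (ae_restrict_iff' measurableSet_Ioi).2 (ae_of_all _ fun u hu => ?_)
    have := ratio_bound hk hkN (u := u) hu
    rw [Real.norm_of_nonneg this.1]
    exact this.2

/-- the coefficients -/
noncomputable def lam (N k : ℕ) : ℝ := ∫ u in Ioi (0 : ℝ), sinh ((N - k) * u) / sinh (N * u)

theorem half {N : ℕ} (hN : 1 ≤ N) {t : ℝ} (ht : t ∈ Ioo (0 : ℝ) π) :
    0 ≤ sin (N * t) * ((π - t) / 2 - ∑ k ∈ range N, lam N k * sin (k * t)) := by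
  have hterm : ∀ k ∈ range N, IntegrableOn
      (fun u : ℝ => sinh ((N - k) * u) / sinh (N * u) * sin (k * t)) (Ioi 0) := by
    intro k hk
    rcases Nat.eq_zero_or_pos k with rfl | hk0
    · simp
    · exact (ratio_int hk0 (Finset.mem_range.1 hk)).mul_const _
  have hsum : ∑ k ∈ range N, lam N k * sin (k * t) =
      ∫ u in Ioi (0 : ℝ), ∑ k ∈ range N, sinh ((N - k) * u) / sinh (N * u) * sin (k * t) := by
    rw [integral_finsetSum _ hterm]
    refine Finset.sum_congr rfl fun k _ => ?_
    rw [integral_mul_const]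
    rfl
  rw [hsum, ← F_val ht, ← integral_sub (F_int ht) (integrable_finsetSum _ hterm),
    ← integral_const_mul]
  refine setIntegral_nonneg measurableSet_Ioi fun u hu => ?_
  have hu' : 0 < u := hu
  have hN0 : (0 : ℝ) < N := by exact_mod_cast hN
  have h1 : 0 < sinh (N * u) := Real.sinh_pos_iff.2 (by positivity)
  have h2 : 0 < sinh u := Real.sinh_pos_iff.2 hu'
  have hc := cosh_sub_pos ht u
  have hq : ∑ k ∈ range N, sinh ((N - k) * u) / sinh (N * u) * sin (k * t) =
      (sinh (N * u) * sin t - sinh u * sin (N * t)) / (2 * (cosh u - cos t) * sinh (N * u)) := by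
    rw [← full_sum N u t]
    have : ∑ k ∈ range N, sinh ((N - k) * u) / sinh (N * u) * sin (k * t) =
        (∑ k ∈ range N, sinh ((N - k) * u) * sin (k * t)) / sinh (N * u) := by
      rw [Finset.sum_div]
      exact Finset.sum_congr rfl fun k _ => by ring
    rw [this, mul_div_mul_left _ _ (by positivity : (2 * (cosh u - cos t)) ≠ 0)]
  rw [hq]
  have : sin (N * t) * (sin t / (2 * (cosh u - cos t)) -
      (sinh (N * u) * sin t - sinh u * sin (N * t)) / (2 * (cosh u - cos t) * sinh (N * u))) =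
      sin (N * t) ^ 2 * sinh u / (2 * (cosh u - cos t) * sinh (N * u)) := by
    field_simp
    ring
  rw [this]
  positivity

theorem sign {N : ℕ} (hN : 1 ≤ N) {t : ℝ} (ht : t ∈ Ioo (0 : ℝ) (2 * π)) :
    0 ≤ sin (N * t) * ((π - t) / 2 - ∑ k ∈ range N, lam N k * sin (k * t)) := by
  rcases lt_trichotomy t π with h | h | h
  · exact half hN ⟨ht.1, h⟩
  · rw [h, sin_nat_mul_pi, zero_mul]
  · have h' := half hN (t := 2 * π - t) ⟨by linarith [ht.2], by linarith⟩
    have e : ∀ k : ℕ, sin (k * (2 * π - t)) = - sin (k * t) := by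
      intro k
      rw [show (k : ℝ) * (2 * π - t) = k * (2 * π) - k * t by ring, sin_nat_mul_two_pi_sub]
    simp only [e] at h'
    have e2 : ∑ k ∈ range N, lam N k * -sin (k * t) = -∑ k ∈ range N, lam N k * sin (k * t) := by
      rw [← Finset.sum_neg_distrib]
      exact Finset.sum_congr rfl fun k _ => by ring
    rw [e2] at h'
    linarith

end Pool.Agent.K7.H26.FV
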